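import Pool.Agent.Helper60.FF.StmtsC

/-!
# DIC: constant reductions
-/

set_option autoImplicit false

namespace Pool.Agent.Helper60.FF

open Polynomial

section dic

variable {p : ℕ} [hp : Fact p.Prime] {n : ℕ}

theorem dic_sp (w : RF p) (φ : Polynomial (RF p)) : sp w (φ.map C) = φ := by
  unfold sp
  rw [Polynomial.map_map]
  have e : (evalRingHom w).comp (C : RF p →+* Polynomial (RF p)) = RingHom.id _ := by
    apply RingHom.ext
    intro x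
    simp
  rw [e, Polynomial.map_id]

theorem dic_sp_mul (w : RF p) (P : Polynomial (RF p)) (φ : Polynomial (RF p)) :
    sp w (C P * φ.map C) = C (P.eval w) * φ := by
  have h := dic_sp w φ
  unfold sp at h ⊢
  rw [Polynomial.map_mul, map_C, h]
  rfl

theorem dic_map_ne {φ : Polynomial (RF p)} : φ.map (C : RF p →+* Polynomial (RF p)) ≠ 0 ↔ φ ≠ 0 :=
  not_congr (Polynomial.map_eq_zero_iff C_injective)

theorem dic_TP (hR : ST_RDU) (K : KD p n) (a ϖ : ℂ_[p]) (T T' : Polynomial (Polynomial (RF p)))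
    (hT : TP K a ϖ T) (h0 : T' ≠ 0) (hn : T'.natDegree ≤ n)
    (hW : {w : RF p | ¬ ∃ s : RF p, s ≠ 0 ∧ sp w T' = C s * sp w T}.Finite) : TP K a ϖ T' := by
  obtain ⟨-, -, B, hB, hT⟩ := hT
  refine ⟨h0, hn, B ∪ {w : RF p | ¬ ∃ s : RF p, s ≠ 0 ∧ sp w T' = C s * sp w T}, hB.union hW, ?_⟩
  intro E₁ π₁ f₁ g1 g2 g3 g4 E π f M g5 g6 g7 g8 g9 ζ hζ hζ1 hζ2 hζB
  have hB1 : res ζ ∉ B := fun h => hζB (Or.inl h)
  have hB2 : ∃ s : RF p, s ≠ 0 ∧ sp (res ζ) T' = C s * sp (res ζ) T := by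
    by_contra hc
    exact hζB (Or.inr hc)
  obtain ⟨Z, hZ, hZ2⟩ := hT E₁ π₁ f₁ g1 g2 g3 g4 E π f M g5 g6 g7 g8 g9 ζ hζ hζ1 hζ2 hB1
  refine ⟨Z, hZ, ?_⟩
  intro z hz hz1 hzZ τ hτ hτA hd
  obtain ⟨s, hs, hsT⟩ := hB2
  rw [hsT]
  exact (hR p (K.χ τ)).2.2.1 _ s hs (hZ2 z hz hz1 hzZ τ hτ hτA hd)

theorem dic_inf (hA : ST_RFA) : Infinite (RF p) := by
  obtain ⟨h, -⟩ := hA p
  exact IsAlgClosed.instInfinite

end dic

theorem st_DIC (hDI : ST_DI) (hP : ST_P1) (hR : ST_RDU) (hA : ST_RFA) : ST_DIC := by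
  intro p n hp hPP K
  have hinf : Infinite (RF p) := dic_inf hA
  have hcof : ∀ S : Set (RF p), S.Finite → ∃ w, w ∉ S := fun S hS => hS.exists_notMem
  refine ⟨?_, ?_, ?_, ?_⟩
  · intro a ϖ a' ϖ' hϖ hϖ' hn ha φ hφ
    have hϖ0 : (ϖ : ℂ_[p]) ≠ 0 := fun h => hϖ (Subtype.ext h)
    have hϖ0' : (ϖ' : ℂ_[p]) ≠ 0 := fun h => hϖ' (Subtype.ext h)
    have hε1 : ‖(ϖ : ℂ_[p]) / (ϖ' : ℂ_[p])‖ = 1 := by
      rw [norm_div, hn]
      exact div_self (norm_ne_zero_iff.2 hϖ0')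
    have hε : res ((ϖ : ℂ_[p]) / (ϖ' : ℂ_[p])) ≠ 0 := (norm_eq_one_iff hε1.le).1 hε1
    constructor
    · obtain ⟨T', hT', -⟩ := hP p n hPP K a' ϖ' hϖ'
      have h1 := hDI p n hPP K a ϖ a' ϖ' hϖ hϖ' hn ha (φ.map C) T' hφ hT'
      refine dic_TP hR K a' ϖ' T' (φ.map C) hT' hφ.1 hφ.2.1 ?_
      refine (h1.image (fun w => res ((ϖ : ℂ_[p]) / (ϖ' : ℂ_[p])) * w +
        res (((a : ℂ_[p]) - (a' : ℂ_[p])) / (ϖ' : ℂ_[p])))).subset ?_
      intro w' hw'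
      refine ⟨(w' - res (((a : ℂ_[p]) - (a' : ℂ_[p])) / (ϖ' : ℂ_[p]))) /
        res ((ϖ : ℂ_[p]) / (ϖ' : ℂ_[p])), ?_, ?_⟩
      · intro hc
        apply hw'
        obtain ⟨s, hs, hsT⟩ := hc
        refine ⟨s, hs, ?_⟩
        rw [mul_div_cancel₀ _ hε, sub_add_cancel, dic_sp] at hsT
        rw [dic_sp]
        exact hsT
      · show res ((ϖ : ℂ_[p]) / (ϖ' : ℂ_[p])) * ((w' - res (((a : ℂ_[p]) - (a' : ℂ_[p])) / (ϖ' : ℂ_[p]))) /
          res ((ϖ : ℂ_[p]) / (ϖ' : ℂ_[p]))) + res (((a : ℂ_[p]) - (a' : ℂ_[p])) / (ϖ' : ℂ_[p])) = w'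
        rw [mul_div_cancel₀ _ hε, sub_add_cancel]
    · intro φ' hφ'
      have h1 := hDI p n hPP K a ϖ a' ϖ' hϖ hϖ' hn ha (φ.map C) (φ'.map C) hφ hφ'
      obtain ⟨w, hw⟩ := hcof _ h1
      have h2 : ∃ s : RF p, s ≠ 0 ∧ sp w (φ.map C) =
          C s * sp (res ((ϖ : ℂ_[p]) / (ϖ' : ℂ_[p])) * w +
            res (((a : ℂ_[p]) - (a' : ℂ_[p])) / (ϖ' : ℂ_[p]))) (φ'.map C) := by
        by_contra hc
        exact hw hc
      obtain ⟨s, hs, hsT⟩ := h2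
      rw [dic_sp, dic_sp] at hsT
      refine ⟨s⁻¹, inv_ne_zero hs, ?_⟩
      rw [hsT, ← mul_assoc, ← C_mul, inv_mul_cancel₀ hs, C_1, one_mul]
  · intro a ϖ P φ hP0 hT
    have h0 : φ.map (C : RF p →+* Polynomial (RF p)) ≠ 0 := by
      intro h
      apply hT.1
      rw [h, mul_zero]
    refine dic_TP hR K a ϖ _ (φ.map C) hT h0 ?_ ?_
    · have h1 := hT.2.1
      rwa [natDegree_C_mul hP0] at h1
    · have hroots : {w : RF p | P.eval w = 0}.Finite := by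
        have h1 : {w : RF p | P.eval w = 0} = {w : RF p | IsRoot P w} := rfl
        rw [h1]
        exact finite_setOfPred_isRoot hP0
      refine hroots.subset ?_
      intro w hw
      show P.eval w = 0
      by_contra hc
      apply hw
      refine ⟨(P.eval w)⁻¹, inv_ne_zero hc, ?_⟩
      rw [dic_sp, dic_sp_mul, ← mul_assoc, ← C_mul, inv_mul_cancel₀ hc, C_1, one_mul]
  · intro a ϖ φ s hs hT
    have hφ0 : φ ≠ 0 := dic_map_ne.1 hT.1
    have e : (C s * φ).map (C : RF p →+* Polynomial (RF p)) = C (C s) * φ.map C := by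
      rw [Polynomial.map_mul, map_C]
    refine dic_TP hR K a ϖ _ _ hT ?_ ?_ ?_
    · rw [dic_map_ne]
      exact mul_ne_zero (C_ne_zero.2 hs) hφ0
    · rw [e, natDegree_C_mul (C_ne_zero.2 hs)]
      exact hT.2.1
    · refine Set.finite_empty.subset ?_
      intro w hw
      apply hw
      exact ⟨s, hs, by rw [dic_sp, dic_sp]⟩
  · intro a ϖ φ hϖ hφ
    have hϖ0 : (ϖ : ℂ_[p]) ≠ 0 := fun h => hϖ (Subtype.ext h)
    obtain ⟨T, hT, hTC⟩ := hP p n hPP K a ϖ hϖ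
    have h1 := hDI p n hPP K a ϖ a ϖ hϖ hϖ rfl (by rw [sub_self, norm_zero]; exact norm_nonneg _)
      T (φ.map C) hT hφ
    have hφ0 : φ ≠ 0 := dic_map_ne.1 hφ.1
    obtain ⟨j₀, hj₀⟩ : ∃ j, φ.coeff j ≠ 0 := by
      by_contra hc
      push Not at hc
      exact hφ0 (Polynomial.ext fun j => by rw [hc j, coeff_zero])
    have hcoef : ∀ j, T.coeff j * C (φ.coeff j₀) = T.coeff j₀ * C (φ.coeff j) := by
      intro j
      apply Polynomial.eq_of_infinite_eval_eq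
      refine (h1.infinite_compl).mono ?_
      intro w hw
      have h2 : ∃ s : RF p, s ≠ 0 ∧ sp w T =
          C s * sp (res ((ϖ : ℂ_[p]) / (ϖ : ℂ_[p])) * w +
            res (((a : ℂ_[p]) - (a : ℂ_[p])) / (ϖ : ℂ_[p]))) (φ.map C) := by
        by_contra hc
        exact hw hc
      obtain ⟨s, hs, hsT⟩ := h2
      rw [dic_sp] at hsT
      have h3 : ∀ i, (T.coeff i).eval w = s * φ.coeff i := by
        intro i
        have h4 := congrArg (fun P => P.coeff i) hsT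
        simp only [coeff_C_mul] at h4
        unfold sp at h4
        rw [coeff_map] at h4
        exact h4
      show (T.coeff j * C (φ.coeff j₀)).eval w = (T.coeff j₀ * C (φ.coeff j)).eval w
      rw [eval_mul, eval_mul, eval_C, eval_C, h3, h3]
      ring
    have hTe : T = C (C (φ.coeff j₀)⁻¹ * T.coeff j₀) * φ.map C := by
      apply Polynomial.ext
      intro j
      rw [coeff_C_mul, coeff_map]
      have h5 : C (φ.coeff j₀)⁻¹ * T.coeff j₀ * C (φ.coeff j) = C (φ.coeff j₀)⁻¹ *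
          (T.coeff j * C (φ.coeff j₀)) := by
        rw [hcoef j]
        ring
      rw [h5, mul_comm (T.coeff j), ← mul_assoc, ← C_mul, inv_mul_cancel₀ hj₀, C_1, one_mul]
    refine ⟨T, C (φ.coeff j₀)⁻¹ * T.coeff j₀, ?_, hT, hTC, hTe⟩
    intro h0
    rw [h0, C_0, zero_mul] at hTe
    exact hT.1 hTe

end Pool.Agent.Helper60.FF
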