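import Pool.Agent.Helper60.FF.DefsA

/-!
# Module FINF (MP_8312c9_nt, part A): the finite field statement behind P1
-/

set_option autoImplicit false

namespace Pool.Agent.Helper60.FF

open Polynomial

variable {F : Type} [Field F]

/-- the part of the vector `v` which belongs to `χ` -/
noncomputable def finf_ct (n : ℕ) (v : Fin (2 * n + 1 + 1) → F) (j : Fin (2 * n + 1 + 1)) :
    Polynomial F :=
  if j.val < n + 1 then monomial j.val (v j) else 0

/-- the part of the vector `v` which belongs to `ψ` -/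
noncomputable def finf_pt (n : ℕ) (v : Fin (2 * n + 1 + 1) → F) (j : Fin (2 * n + 1 + 1)) :
    Polynomial F :=
  if j.val < n + 1 then 0 else monomial (j.val - (n + 1)) (v j)

noncomputable def finf_chi (n : ℕ) (v : Fin (2 * n + 1 + 1) → F) : Polynomial F :=
  ∑ j, finf_ct n v j

noncomputable def finf_psi (n : ℕ) (v : Fin (2 * n + 1 + 1) → F) : Polynomial F :=
  ∑ j, finf_pt n v j

/-- the matrix of the basic system with parameter `z = X` -/
noncomputable def finf_M (n : ℕ) (w : F) (α ω : Bool → ℕ → F) (r : Bool × Fin (2 * n + 1))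
    (j : Fin (2 * n + 1 + 1)) : Polynomial F :=
  if j.val < n + 1 then
    (if r.1 = true then X * C ((j.val : F) * pt w r.1 r.2 ^ (j.val - 1)) else 0)
      - (C (α r.1 r.2) + X * C (ω r.1 r.2)) * C (pt w r.1 r.2 ^ j.val)
  else C (pt w r.1 r.2 ^ (j.val - (n + 1)))

theorem finf_row (n : ℕ) (w : F) (α ω : Bool → ℕ → F) (z : F) (v : Fin (2 * n + 1 + 1) → F)
    (r : Bool × Fin (2 * n + 1)) :
    ∑ j, (finf_M n w α ω r j).eval z * v j =
      (finf_psi n v).eval (pt w r.1 r.2)
        + (if r.1 = true then z * (derivative (finf_chi n v)).eval (pt w r.1 r.2) else 0)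
        - (α r.1 r.2 + z * ω r.1 r.2) * (finf_chi n v).eval (pt w r.1 r.2) := by
  set x := pt w r.1 r.2 with hx
  have hterm : ∀ j, (finf_M n w α ω r j).eval z * v j =
      (finf_pt n v j).eval x
        + (if r.1 = true then z * (derivative (finf_ct n v j)).eval x else 0)
        - (α r.1 r.2 + z * ω r.1 r.2) * (finf_ct n v j).eval x := by
    intro j
    unfold finf_M finf_pt finf_ct
    by_cases hj : j.val < n + 1
    · by_cases hb : r.1 = true
      · simp only [hj, hb, if_true, derivative_monomial, eval_monomial, eval_zero, eval_sub,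
          eval_mul, eval_add, eval_X, eval_C]
        simp only [hb] at hx
        rw [← hx]
        ring
      · simp only [hj, if_neg hb, if_true, eval_monomial, eval_zero, eval_sub,
          eval_mul, eval_add, eval_X, eval_C]
        rw [← hx]
        ring
    · simp only [hj, if_false, derivative_zero, eval_zero, eval_monomial, eval_C, mul_zero,
        ite_self]
      rw [← hx]
      ring
  rw [Finset.sum_congr rfl fun j _ => hterm j, Finset.sum_sub_distrib, Finset.sum_add_distrib,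
    ← Finset.mul_sum]
  unfold finf_psi finf_chi
  rw [eval_finsetSum, eval_finsetSum, derivative_sum, eval_finsetSum]
  by_cases hb : r.1 = true
  · simp only [hb, if_true, Finset.mul_sum]
  · simp only [if_neg hb, Finset.sum_const_zero]

theorem finf_deg_chi (n : ℕ) (v : Fin (2 * n + 1 + 1) → F) : (finf_chi n v).natDegree ≤ n := by
  unfold finf_chi
  refine natDegree_sum_le_of_forall_le _ _ fun j _ => ?_
  unfold finf_ct
  split_ifs with h
  · exact (natDegree_monomial_le _).trans (by omega)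
  · simp

theorem finf_deg_psi (n : ℕ) (v : Fin (2 * n + 1 + 1) → F) : (finf_psi n v).natDegree ≤ n := by
  unfold finf_psi
  refine natDegree_sum_le_of_forall_le _ _ fun j _ => ?_
  unfold finf_pt
  split_ifs with h
  · simp
  · have := j.isLt
    exact (natDegree_monomial_le _).trans (by omega)

theorem finf_coeff_chi (n : ℕ) (v : Fin (2 * n + 1 + 1) → F) (k : ℕ) (hk : k < n + 1)
    (hk' : k < 2 * n + 1 + 1) : (finf_chi n v).coeff k = v ⟨k, hk'⟩ := by
  unfold finf_chi
  rw [finsetSum_coeff, Finset.sum_eq_single (⟨k, hk'⟩ : Fin (2 * n + 1 + 1))]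
  · unfold finf_ct
    rw [if_pos hk, coeff_monomial, if_pos rfl]
  · intro j _ hj
    unfold finf_ct
    split_ifs with h
    · rw [coeff_monomial, if_neg fun h' => hj (Fin.ext h')]
    · rw [coeff_zero]
  · intro h
    exact absurd (Finset.mem_univ _) h

theorem finf_coeff_psi (n : ℕ) (v : Fin (2 * n + 1 + 1) → F) (k : ℕ)
    (hk' : k + (n + 1) < 2 * n + 1 + 1) : (finf_psi n v).coeff k = v ⟨k + (n + 1), hk'⟩ := by
  unfold finf_psi
  rw [finsetSum_coeff, Finset.sum_eq_single (⟨k + (n + 1), hk'⟩ : Fin (2 * n + 1 + 1))]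
  · unfold finf_pt
    have h1 : ¬ (k + (n + 1) < n + 1) := by omega
    have h2 : k + (n + 1) - (n + 1) = k := by omega
    simp only [h1, if_false, h2]
    rw [coeff_monomial, if_pos rfl]
  · intro j _ hj
    unfold finf_pt
    split_ifs with h
    · rw [coeff_zero]
    · rw [coeff_monomial, if_neg]
      intro h'
      apply hj
      apply Fin.ext
      change j.val = k + (n + 1)
      omega
  · intro h
    exact absurd (Finset.mem_univ _) h

/-- the coefficient vector -/
noncomputable def finf_vec (n : ℕ) (χ ψ : Polynomial F) (j : Fin (2 * n + 1 + 1)) : F :=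
  if j.val < n + 1 then χ.coeff j.val else ψ.coeff (j.val - (n + 1))

theorem finf_chi_vec (n : ℕ) (χ ψ : Polynomial F) (hχ : χ.natDegree ≤ n) :
    finf_chi n (finf_vec n χ ψ) = χ := by
  ext k
  by_cases hk : k < n + 1
  · rw [finf_coeff_chi n _ k hk (by omega)]
    unfold finf_vec
    rw [if_pos hk]
  · rw [coeff_eq_zero_of_natDegree_lt, coeff_eq_zero_of_natDegree_lt]
    · omega
    · have := finf_deg_chi n (finf_vec n χ ψ)
      omega

theorem finf_psi_vec (n : ℕ) (χ ψ : Polynomial F) (hψ : ψ.natDegree ≤ n) :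
    finf_psi n (finf_vec n χ ψ) = ψ := by
  ext k
  by_cases hk : k < n + 1
  · rw [finf_coeff_psi n _ k (by omega)]
    unfold finf_vec
    have h1 : ¬ (k + (n + 1) < n + 1) := by omega
    have h2 : k + (n + 1) - (n + 1) = k := by omega
    simp only [h1, if_false, h2]
  · rw [coeff_eq_zero_of_natDegree_lt, coeff_eq_zero_of_natDegree_lt]
    · omega
    · have := finf_deg_psi n (finf_vec n χ ψ)
      omega

theorem finf_ker (n : ℕ) (w : F) (α ω : Bool → ℕ → F) (z : F) (v : Fin (2 * n + 1 + 1) → F) :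
    (∀ r, ∑ j, (finf_M n w α ω r j).eval z * v j = 0) ↔
      Sy n w z (fun b i => α b i + z * ω b i) (finf_chi n v) (finf_psi n v) := by
  constructor
  · intro h
    refine ⟨finf_deg_chi n v, finf_deg_psi n v, fun b i hi => ?_⟩
    have h1 := h (b, ⟨i, by omega⟩)
    rw [finf_row, sub_eq_zero] at h1
    exact h1
  · intro h r
    rw [finf_row, sub_eq_zero]
    have hi := r.2.isLt
    exact h.2.2 r.1 r.2 (by omega)

theorem finf_smul_of (n : ℕ) (u : Fin (2 * n + 1 + 1) → F) (χ ψ : Polynomial F) (s : F)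
    (h1 : finf_chi n u = C s * χ) (h2 : finf_psi n u = C s * ψ) :
    u = s • finf_vec n χ ψ := by
  funext j
  rw [Pi.smul_apply, smul_eq_mul]
  unfold finf_vec
  by_cases hj : j.val < n + 1
  · rw [if_pos hj]
    have h3 := congrArg (fun P => coeff P j.val) h1
    simp only [coeff_C_mul] at h3
    rw [finf_coeff_chi n u j.val hj j.isLt] at h3
    exact h3
  · rw [if_neg hj]
    have h3 := congrArg (fun P => coeff P (j.val - (n + 1))) h2
    simp only [coeff_C_mul] at h3
    have hj' := j.isLt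
    rw [finf_coeff_psi n u (j.val - (n + 1)) (by omega)] at h3
    rw [← h3]
    congr 1
    apply Fin.ext
    change j.val = j.val - (n + 1) + (n + 1)
    omega

/-- the value of `χ` at `i` as a polynomial in `z` -/
noncomputable def finf_P (n : ℕ) (κ : Fin (2 * n + 1 + 1) → Polynomial F) (i : ℕ) : Polynomial F :=
  ∑ j, if j.val < n + 1 then κ j * C ((i : F) ^ j.val) else 0

theorem finf_deg_P (n : ℕ) (κ : Fin (2 * n + 1 + 1) → Polynomial F)
    (hκ : ∀ j, (κ j).natDegree ≤ 2 * n + 1) (i : ℕ) : (finf_P n κ i).natDegree ≤ 2 * n + 1 := by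
  unfold finf_P
  refine natDegree_sum_le_of_forall_le _ _ fun j _ => ?_
  split_ifs with h
  · exact (natDegree_mul_C_le _ _).trans (hκ j)
  · simp

theorem finf_eval_P (n : ℕ) (κ : Fin (2 * n + 1 + 1) → Polynomial F) (z s : F) (i : ℕ)
    (χ ψ : Polynomial F) (hχ : χ.natDegree ≤ n)
    (h : ∀ j, finf_vec n χ ψ j = s * (κ j).eval z) :
    χ.eval (i : F) = s * (finf_P n κ i).eval z := by
  have h1 : χ.eval (i : F) = (finf_chi n (finf_vec n χ ψ)).eval (i : F) := by
    rw [finf_chi_vec n χ ψ hχ]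
  rw [h1]
  unfold finf_chi finf_P
  rw [eval_finsetSum, eval_finsetSum, Finset.mul_sum]
  refine Finset.sum_congr rfl fun j _ => ?_
  unfold finf_ct
  split_ifs with hj
  · rw [eval_monomial, eval_mul, eval_C, h j]
    ring
  · simp

/-- polynomials of degree `≤ n` which agree at `0, …, n` are equal -/
theorem finf_ext (p n : ℕ) [CharP F p] (hp : 2 * n < p) (f g : Polynomial F)
    (hf : f.natDegree ≤ n) (hg : g.natDegree ≤ n)
    (h : ∀ i : ℕ, i ≤ n → f.eval (i : F) = g.eval (i : F)) : f = g := by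
  classical
  have hinj : Set.InjOn (fun i : ℕ => (i : F)) (Finset.range (n + 1) : Finset ℕ) := by
    intro i hi j hj hij
    have hi' : i < n + 1 := by simpa using hi
    have hj' : j < n + 1 := by simpa using hj
    exact CharP.natCast_injOn_Iio F p (by simp; omega) (by simp; omega) hij
  refine eq_of_degree_sub_lt_of_eval_finset_eq ((Finset.range (n + 1)).image fun i : ℕ => (i : F))
    ?_ ?_
  · rw [Finset.card_image_of_injOn hinj, Finset.card_range]
    refine lt_of_le_of_lt (degree_sub_le _ _) (max_lt ?_ ?_)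
    · exact lt_of_le_of_lt degree_le_natDegree (by exact_mod_cast (by omega : f.natDegree < n + 1))
    · exact lt_of_le_of_lt degree_le_natDegree (by exact_mod_cast (by omega : g.natDegree < n + 1))
  · intro x hx
    rw [Finset.mem_image] at hx
    obtain ⟨i, hi, rfl⟩ := hx
    exact h i (by have := Finset.mem_range.1 hi; omega)

theorem st_FINF (hU : ST_UNQL) (hL : ST_LAP) (hC : ST_CNT) : ST_FINF := by
  classical
  intro F _ _ p n hp hchar hn h2n hdiv hcard w α ω c S hex hS
  -- the kernel at `z = 1`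
  have hker1 : ∀ u v : Fin (2 * n + 1 + 1) → F,
      (∀ r, ∑ j, (finf_M n w α ω r j).eval 1 * u j = 0) →
      (∀ r, ∑ j, (finf_M n w α ω r j).eval 1 * v j = 0) → u ≠ 0 → ∃ s : F, v = s • u := by
    intro u v hu hv hu0
    obtain ⟨χs, ψs, hs⟩ := hex 1
    obtain ⟨hχ0, hsy, -⟩ := hS 1 χs ψs hs
    obtain ⟨s1, h1, h1'⟩ := hU F p n hp hchar h2n w 1 _ χs ψs _ _ one_ne_zero hsy
      ((finf_ker n w α ω 1 u).1 hu) hχ0
    obtain ⟨s2, h2, h2'⟩ := hU F p n hp hchar h2n w 1 _ χs ψs _ _ one_ne_zero hsy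
      ((finf_ker n w α ω 1 v).1 hv) hχ0
    have e1 := finf_smul_of n u χs ψs s1 h1 h1'
    have e2 := finf_smul_of n v χs ψs s2 h2 h2'
    have hs1 : s1 ≠ 0 := by
      rintro rfl
      exact hu0 (by rw [e1, zero_smul])
    refine ⟨s2 * s1⁻¹, ?_⟩
    rw [e1, e2, smul_smul, mul_assoc, inv_mul_cancel₀ hs1, mul_one]
  have hMdeg : ∀ (r : Bool × Fin (2 * n + 1)) (j : Fin (2 * n + 1 + 1)),
      (finf_M n w α ω r j).natDegree ≤ 1 := by
    intro r j
    unfold finf_M
    split_ifs with h1 h2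
    · refine (natDegree_sub_le _ _).trans (max_le ?_ ?_)
      · exact (natDegree_mul_C_le _ _).trans natDegree_X_le
      · refine (natDegree_mul_C_le _ _).trans ((natDegree_add_le _ _).trans (max_le ?_ ?_))
        · rw [natDegree_C]; omega
        · exact (natDegree_mul_C_le _ _).trans natDegree_X_le
    · rw [zero_sub, natDegree_neg]
      refine (natDegree_mul_C_le _ _).trans ((natDegree_add_le _ _).trans (max_le ?_ ?_))
      · rw [natDegree_C]; omega
      · exact (natDegree_mul_C_le _ _).trans natDegree_X_le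
    · rw [natDegree_C]; omega
  obtain ⟨κ, d, hd0, hdd, hκd, hκ⟩ := hL F (2 * n + 1) (Bool × Fin (2 * n + 1))
    (finf_M n w α ω) 1 hMdeg hker1
  -- the basic consequence
  have hval : ∀ z χ ψ, d.eval z ≠ 0 → S z χ ψ → ∃ s : F, s ≠ 0 ∧
      ∀ i : ℕ, χ.eval (i : F) = s * (finf_P n κ i).eval z := by
    intro z χ ψ hz hs
    obtain ⟨hχ0, hsy, -⟩ := hS z χ ψ hs
    have hk : ∀ r, ∑ j, (finf_M n w α ω r j).eval z * finf_vec n χ ψ j = 0 := by
      refine (finf_ker n w α ω z _).2 ?_
      rw [finf_chi_vec n χ ψ hsy.1, finf_psi_vec n χ ψ hsy.2.1]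
      exact hsy
    obtain ⟨s, h⟩ := hκ z hz _ hk
    refine ⟨s, ?_, fun i => finf_eval_P n κ z s i χ ψ hsy.1 h⟩
    rintro rfl
    apply hχ0
    rw [← finf_chi_vec n χ ψ hsy.1]
    unfold finf_chi
    refine Finset.sum_eq_zero fun j _ => ?_
    unfold finf_ct
    rw [h j, zero_mul, monomial_zero_right, ite_self]
  have hPd := finf_deg_P n κ hκd
  -- proportionality of the `P i`
  have hprop : ∀ i j : ℕ, i ≤ n → j ≤ n → finf_P n κ i ≠ 0 → finf_P n κ j ≠ 0 →
      ∃ r : F, r ≠ 0 ∧ finf_P n κ i = C r * finf_P n κ j := by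
    intro i j hi hj hPi hPj
    refine hC F (2 * n + 1) (by omega) ?_ (by omega) _ _ d (c i j) hPi hPj hd0 (hPd i) (hPd j) hdd ?_
    · have : 2 * (2 * n + 1) = 4 * n + 2 := by ring
      rw [this]
      exact hdiv
    · intro z hz h1 h2
      obtain ⟨χ, ψ, hs⟩ := hex z
      obtain ⟨s, hs0, hse⟩ := hval z χ ψ hz hs
      obtain ⟨t, ht0, ht⟩ := (hS z χ ψ hs).2.2 i j hi hj
        (by rw [hse i]; exact mul_ne_zero hs0 h1) (by rw [hse j]; exact mul_ne_zero hs0 h2)
      refine ⟨t, ht0, ?_⟩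
      rw [hse i, hse j] at ht
      have e : 2 * (2 * n + 1) = 4 * n + 2 := by ring
      rw [e]
      apply mul_left_cancel₀ hs0
      rw [ht]
      ring
  -- the exceptional set
  set Z : Finset F := d.roots.toFinset with hZ
  have hZc : Z.card ≤ 2 * n + 1 :=
    ((Multiset.toFinset_card_le _).trans (card_roots' d)).trans hdd
  have hZm : ∀ z, z ∉ Z → d.eval z ≠ 0 := by
    intro z hz h
    apply hz
    rw [hZ, Multiset.mem_toFinset, mem_roots hd0]
    exact h
  have hlt : Z.card < (Finset.univ : Finset F).card := by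
    rw [Finset.card_univ]; omega
  obtain ⟨z₁, -, hz₁⟩ := Finset.exists_mem_notMem_of_card_lt_card hlt
  have hlt2 : (insert z₁ Z).card < (Finset.univ : Finset F).card := by
    rw [Finset.card_univ]
    have := Finset.card_insert_le z₁ Z
    omega
  obtain ⟨z₂, -, hz₂⟩ := Finset.exists_mem_notMem_of_card_lt_card hlt2
  have hz₂' : z₂ ∉ Z := fun h => hz₂ (Finset.mem_insert_of_mem h)
  have hz12 : z₁ - z₂ ≠ 0 := by
    intro h
    apply hz₂
    rw [← sub_eq_zero.1 h]
    exact Finset.mem_insert_self _ _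
  -- one of the `P i` is nonzero
  obtain ⟨i₀, hi₀, hP₀⟩ : ∃ i : ℕ, i ≤ n ∧ finf_P n κ i ≠ 0 := by
    by_contra hcon
    push Not at hcon
    obtain ⟨χ, ψ, hs⟩ := hex z₁
    obtain ⟨s, hs0, hse⟩ := hval z₁ χ ψ (hZm z₁ hz₁) hs
    obtain ⟨hχ0, hsy, -⟩ := hS z₁ χ ψ hs
    apply hχ0
    refine finf_ext p n h2n χ 0 hsy.1 (by simp) fun i hi => ?_
    rw [hse i, hcon i hi]
    simp
  have hr : ∀ i : ℕ, ∃ r : F, i ≤ n → finf_P n κ i = C r * finf_P n κ i₀ := by
    intro i
    by_cases hi : i ≤ n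
    · by_cases h0 : finf_P n κ i = 0
      · exact ⟨0, fun _ => by rw [h0, C_0, zero_mul]⟩
      · obtain ⟨r, -, hr⟩ := hprop i i₀ hi hi₀ h0 hP₀
        exact ⟨r, fun _ => hr⟩
    · exact ⟨0, fun h => absurd h hi⟩
  choose r hr using hr
  have hinj : Set.InjOn (fun i : ℕ => (i : F)) (Finset.range (n + 1) : Finset ℕ) := by
    intro i hi j hj hij
    have hi' : i < n + 1 := by simpa using hi
    have hj' : j < n + 1 := by simpa using hj
    exact CharP.natCast_injOn_Iio F p (by simp; omega) (by simp; omega) hij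
  set χ₀ : Polynomial F := Lagrange.interpolate (Finset.range (n + 1)) (fun i : ℕ => (i : F)) r
    with hχ₀
  have hχe : ∀ i : ℕ, i ≤ n → χ₀.eval (i : F) = r i := fun i hi =>
    Lagrange.eval_interpolate_at_node r hinj (Finset.mem_range.2 (by omega))
  have hχd : χ₀.natDegree ≤ n := by
    have h1 := Lagrange.degree_interpolate_lt r hinj
    rw [Finset.card_range] at h1
    by_cases h0 : χ₀ = 0
    · rw [h0]; simp
    · have h2 := (natDegree_lt_iff_degree_lt h0).2 h1
      omega
  have hmain : ∀ z, z ∉ Z → ∀ χ ψ, S z χ ψ → ∃ s : F, s ≠ 0 ∧ χ = C s * χ₀ := by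
    intro z hz χ ψ hs
    obtain ⟨s, hs0, hse⟩ := hval z χ ψ (hZm z hz) hs
    obtain ⟨hχ0, hsy, -⟩ := hS z χ ψ hs
    have he : χ = C (s * (finf_P n κ i₀).eval z) * χ₀ := by
      refine finf_ext p n h2n _ _ hsy.1 ((natDegree_C_mul_le _ _).trans hχd) fun i hi => ?_
      rw [hse i, hr i hi, eval_mul, eval_C, eval_mul, eval_C, hχe i hi]
      ring
    refine ⟨_, ?_, he⟩
    intro h0
    apply hχ0
    rw [he, h0, C_0, zero_mul]
  have hχne : χ₀ ≠ 0 := by
    obtain ⟨χ, ψ, hs⟩ := hex z₁
    obtain ⟨s, -, he⟩ := hmain z₁ hz₁ χ ψ hs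
    intro h0
    exact (hS z₁ χ ψ hs).1 (by rw [he, h0, mul_zero])
  -- the second polynomial
  obtain ⟨χa, ψa, hsa⟩ := hex z₁
  obtain ⟨sa, hsa0, hea⟩ := hmain z₁ hz₁ χa ψa hsa
  obtain ⟨χb, ψb, hsb⟩ := hex z₂
  obtain ⟨sb, hsb0, heb⟩ := hmain z₂ hz₂' χb ψb hsb
  obtain ⟨-, ⟨-, hda, hya⟩, -⟩ := hS z₁ χa ψa hsa
  obtain ⟨-, ⟨-, hdb, hyb⟩, -⟩ := hS z₂ χb ψb hsb
  refine ⟨χ₀, C (z₁ - z₂)⁻¹ * (C sa⁻¹ * ψa - C sb⁻¹ * ψb), Z, hχne, ⟨hχd, ?_, ?_⟩, hZc, hmain⟩
  · refine (natDegree_C_mul_le _ _).trans ((natDegree_sub_le _ _).trans (max_le ?_ ?_))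
    · exact (natDegree_C_mul_le _ _).trans hda
    · exact (natDegree_C_mul_le _ _).trans hdb
  · intro b i hi
    have h1 := hya b i hi
    have h2 := hyb b i hi
    rw [hea] at h1
    rw [heb] at h2
    rw [eval_mul, eval_sub, eval_mul, eval_mul, eval_C, eval_C, eval_C]
    generalize hx : pt w b i = x at h1 h2
    rw [derivative_C_mul, eval_mul, eval_mul, eval_C] at h1 h2
    cases b
    · simp only [Bool.false_eq_true, if_false, add_zero] at h1 h2 ⊢
      rw [h1, h2]
      field_simp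
      ring
    · simp only [if_true] at h1 h2 ⊢
      have e1 : ψa.eval x = (α true i + z₁ * ω true i) * (sa * χ₀.eval x)
          - z₁ * (sa * (derivative χ₀).eval x) := by rw [← h1]; ring
      have e2 : ψb.eval x = (α true i + z₂ * ω true i) * (sb * χ₀.eval x)
          - z₂ * (sb * (derivative χ₀).eval x) := by rw [← h2]; ring
      rw [e1, e2]
      field_simp
      ring

end Pool.Agent.Helper60.FF
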