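import Pool.Agent.Helper60.FF.DefsB
import Pool.Agent.Helper50.BSC.LOC

/-!
# LFX: local field data with uniformizer in an algebraically closed subfield
-/

set_option autoImplicit false

namespace Pool.Agent.Helper60.FF

open Polynomial IntermediateField

section lfx

variable {p : ℕ} [hp : Fact p.Prime]

theorem lfx_gap {X : Type} [NormedField X] (S : Set X) (hS : S.Finite) (t : X) (ht : t ∉ S) :
    ∃ δ : ℝ, 0 < δ ∧ ∀ s ∈ S, δ ≤ ‖t - s‖ := by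
  have h1 : IsOpen Sᶜ := hS.isClosed.isOpen_compl
  obtain ⟨δ, hδ, hb⟩ := Metric.isOpen_iff.1 h1 t ht
  refine ⟨δ, hδ, fun s hs => ?_⟩
  by_contra hc
  have h2 : s ∈ Metric.ball t δ := by
    rw [Metric.mem_ball, dist_comm, dist_eq_norm]
    exact not_le.1 hc
  exact hb h2 hs

/-- every finite extension of `ℚ_p` is generated by an element algebraic over `ℚ` -/
theorem lfx_gen (t : PadicAlgCl p) : ∃ (b : PadicAlgCl p) (g : Polynomial ℚ), g.Monic ∧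
    aeval b g = 0 ∧ ℚ_[p]⟮b⟯ = ℚ_[p]⟮t⟯ := by
  have ht : IsIntegral ℚ_[p] t := Algebra.IsIntegral.isIntegral t
  have fmon : (minpoly ℚ_[p] t).Monic := minpoly.monic ht
  have fa0 : aeval t (minpoly ℚ_[p] t) = 0 := minpoly.aeval _ _
  have fdeg : (minpoly ℚ_[p] t).natDegree ≠ 0 := (minpoly.natDegree_pos ht).ne'
  obtain ⟨δ, hδ, hδ2⟩ := lfx_gap (((minpoly ℚ_[p] t).rootSet (PadicAlgCl p)) \ {t})
    ((rootSet_finite _ _).subset Set.sdiff_subset) t (fun h => h.2 rfl)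
  have hε : (0 : ℝ) < (δ / (max ‖t‖ 1)) ^ (minpoly ℚ_[p] t).natDegree /
    ((minpoly ℚ_[p] t).natDegree + 1) := by positivity
  have hi : DenseRange (algebraMap ℚ ℚ_[p]) := by
    have h := Padic.denseRange_ratCast p
    have e : (algebraMap ℚ ℚ_[p] : ℚ → ℚ_[p]) = ((↑) : ℚ → ℚ_[p]) := by
      funext q
      exact eq_ratCast (algebraMap ℚ ℚ_[p]) q
    rw [e]
    exact h
  obtain ⟨g, gmon, gdeg, gcoeff⟩ :=
    exists_monic_and_natDegree_eq_and_norm_map_algebraMap_coeff_sub_lt hi fmon hε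
  obtain ⟨b, hb, hab⟩ := exists_aroots_norm_sub_lt_of_norm_coeff_sub_lt (L := PadicAlgCl p)
      hε fa0 fmon (gmon.map _) (gdeg ▸ (g.natDegree_map _)) gcoeff (IsAlgClosed.splits _)
  have hab2 : ‖t - b‖ < δ := by
    rw [← Real.rpow_natCast, ← mul_comm_div, div_self, one_mul,
        ← Real.rpow_mul (div_pos hδ (by positivity)).le, mul_inv_cancel₀] at hab
    · simpa [mul_assoc, div_mul_cancel₀ _ (by positivity : (max ‖t‖ 1) > 0).ne'] using hab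
    · simp [fdeg]
    · positivity
  have hb0 : aeval b (g.map (algebraMap ℚ ℚ_[p])) = 0 := (mem_aroots.1 hb).2
  have hbi : IsIntegral ℚ_[p] b := Algebra.IsIntegral.isIntegral b
  have hk : t ∈ ℚ_[p]⟮b⟯ := by
    refine IsKrasner.krasner (minpoly.irreducible ht).separable (IsAlgClosed.splits _) hbi ?_
    intro t' h1 h2
    refine lt_of_lt_of_le hab2 (hδ2 t' ⟨?_, fun h => h2 h.symm⟩)
    exact (isConjRoot_iff_mem_minpoly_rootSet ht).1 h1
  refine ⟨b, g, gmon, ?_, ?_⟩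
  · rwa [aeval_map_algebraMap] at hb0
  · have hle : ℚ_[p]⟮t⟯ ≤ ℚ_[p]⟮b⟯ := by
      rw [adjoin_simple_le_iff]
      exact hk
    have hfin : FiniteDimensional ℚ_[p] ℚ_[p]⟮b⟯ := adjoin.finiteDimensional hbi
    refine (eq_of_le_of_finrank_le hle ?_).symm
    rw [adjoin.finrank hbi, adjoin.finrank ht, gdeg]
    have h3 : (minpoly ℚ_[p] b).natDegree ≤ (g.map (algebraMap ℚ ℚ_[p])).natDegree :=
      natDegree_le_of_dvd (minpoly.dvd _ _ hb0) (gmon.map _).ne_zero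
    rwa [natDegree_map] at h3

theorem lfx_poly {K L : Type} [Field K] [Field L] [Algebra K L] {t x : L} (ht : IsAlgebraic K t)
    (hx : x ∈ K⟮t⟯) : ∃ P : Polynomial K, aeval t P = x := by
  rw [← mem_toSubalgebra, adjoin_simple_toSubalgebra_of_isAlgebraic ht,
    Algebra.adjoin_singleton_eq_range_aeval] at hx
  obtain ⟨P, hP⟩ := hx
  exact ⟨P, hP⟩

/-- `E` is generated by an element of `A ∩ E` -/
theorem lfx_mem (A : Subfield ℂ_[p]) (hA : IsAlgClosed A) (E : IntermediateField ℚ_[p] ℂ_[p])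
    (hE : FiniteDimensional ℚ_[p] E) : ∃ θ ∈ A, θ ∈ E ∧ ∀ x ∈ E, ∃ P : Polynomial ℚ_[p], aeval θ P = x := by
  obtain ⟨α, hα⟩ := Field.exists_primitive_element ℚ_[p] E
  have hαi : IsAlgebraic ℚ_[p] α := IsAlgebraic.of_finite ℚ_[p] α
  have hαi2 : IsAlgebraic ℚ_[p] (α : ℂ_[p]) := hαi.algebraMap (A := ℂ_[p])
  obtain ⟨t, ht⟩ := Pool.Agent.Helper14.BSC.pl_mem (α : ℂ_[p]) hαi2
  obtain ⟨b, g, gmon, hg0, hbt⟩ := lfx_gen t
  have hta : IsAlgebraic ℚ_[p] t := Algebra.IsAlgebraic.isAlgebraic t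
  have hba : IsAlgebraic ℚ_[p] b := Algebra.IsAlgebraic.isAlgebraic b
  obtain ⟨R, hR⟩ := lfx_poly hta (hbt ▸ mem_adjoin_simple_self ℚ_[p] b : b ∈ ℚ_[p]⟮t⟯)
  obtain ⟨Q, hQ⟩ := lfx_poly hba (hbt ▸ mem_adjoin_simple_self ℚ_[p] t : t ∈ ℚ_[p]⟮b⟯)
  refine ⟨algebraMap (PadicAlgCl p) ℂ_[p] b, ?_, ?_, ?_⟩
  · have h1 : aeval (algebraMap (PadicAlgCl p) ℂ_[p] b) g = 0 := by
      rw [aeval_algebraMap_apply, hg0, map_zero]
    have hs : (g.map (algebraMap ℚ A)).Splits := IsAlgClosed.splits _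
    have e : (g.map (algebraMap ℚ A)).map A.subtype = g.map (algebraMap ℚ ℂ_[p]) := by
      rw [Polynomial.map_map]
      congr 1
    have h2 : algebraMap (PadicAlgCl p) ℂ_[p] b ∈ ((g.map (algebraMap ℚ A)).map A.subtype).roots := by
      rw [e, mem_roots (gmon.map _).ne_zero, IsRoot.def, eval_map_algebraMap]
      exact h1
    rw [hs.roots_map, Multiset.mem_map] at h2
    obtain ⟨r, -, hr⟩ := h2
    rw [← hr]
    exact r.2
  · rw [← hR, ← aeval_algebraMap_apply, ht]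
    have h2 : aeval (α : ℂ_[p]) R = ((aeval α R : E) : ℂ_[p]) := by
      exact aeval_algebraMap_apply ℂ_[p] α R
    rw [h2]
    exact (aeval α R).2
  · intro x hx
    have h3 : (⟨x, hx⟩ : E) ∈ ℚ_[p]⟮α⟯ := by rw [hα]; exact mem_top
    obtain ⟨P, hP⟩ := lfx_poly hαi h3
    have h4 : aeval (α : ℂ_[p]) P = x := by
      have h5 : aeval (algebraMap E ℂ_[p] α) P = algebraMap E ℂ_[p] (aeval α P) :=
        aeval_algebraMap_apply ℂ_[p] α P
      rw [hP] at h5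
      exact h5
    refine ⟨P.comp Q, ?_⟩
    rw [aeval_comp, aeval_algebraMap_apply, hQ, ht, h4]

theorem lfx_approx (θ : ℂ_[p]) (P : Polynomial ℚ_[p]) : ∀ δ : ℝ, 0 < δ → ∃ Q : Polynomial ℚ,
    ‖aeval θ P - aeval θ Q‖ < δ := by
  induction P using Polynomial.induction_on' with
  | add P₁ P₂ h₁ h₂ =>
    intro δ hδ
    obtain ⟨Q₁, hQ₁⟩ := h₁ δ hδ
    obtain ⟨Q₂, hQ₂⟩ := h₂ δ hδ
    refine ⟨Q₁ + Q₂, ?_⟩
    have e : aeval θ (P₁ + P₂) - aeval θ (Q₁ + Q₂) = (aeval θ P₁ - aeval θ Q₁) +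
      (aeval θ P₂ - aeval θ Q₂) := by
      rw [map_add, map_add]; ring
    rw [e]
    exact lt_of_le_of_lt (IsUltrametricDist.norm_add_le_max _ _) (max_lt hQ₁ hQ₂)
  | monomial n c =>
    intro δ hδ
    have hθ : 0 < 1 + ‖θ‖ ^ n := by positivity
    obtain ⟨q, hq⟩ := Padic.rat_dense p c (div_pos hδ hθ)
    refine ⟨monomial n q, ?_⟩
    have e : aeval θ (monomial n c) - aeval θ (monomial n q) =
      algebraMap ℚ_[p] ℂ_[p] (c - (q : ℚ_[p])) * θ ^ n := by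
      rw [aeval_monomial, aeval_monomial, map_sub, sub_mul]
      congr 2
      simp
    have e2 : ‖algebraMap ℚ_[p] ℂ_[p] (c - (q : ℚ_[p]))‖ = ‖c - (q : ℚ_[p])‖ :=
      PadicComplex.norm_extends' p _
    rw [e, norm_mul, norm_pow, e2]
    rw [lt_div_iff₀ hθ] at hq
    nlinarith [norm_nonneg (c - (q : ℚ_[p])), pow_nonneg (norm_nonneg θ) n]

theorem lfx_dense (A : Subfield ℂ_[p]) (hA : IsAlgClosed A) (E : IntermediateField ℚ_[p] ℂ_[p])
    (hE : FiniteDimensional ℚ_[p] E) (x : ℂ_[p]) (hx : x ∈ E) (δ : ℝ) (hδ : 0 < δ) :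
    ∃ a ∈ A, a ∈ E ∧ ‖x - a‖ < δ := by
  obtain ⟨θ, hθA, hθE, hθ⟩ := lfx_mem A hA E hE
  obtain ⟨P, hP⟩ := hθ x hx
  obtain ⟨Q, hQ⟩ := lfx_approx θ P δ hδ
  refine ⟨aeval θ Q, ?_, ?_, ?_⟩
  · rw [aeval_eq_sum_range]
    refine sum_mem fun i _ => ?_
    rw [Algebra.smul_def, eq_ratCast]
    exact mul_mem (SubfieldClass.ratCast_mem A _) (pow_mem hθA i)
  · rw [aeval_eq_sum_range]
    refine sum_mem fun i _ => ?_
    rw [Algebra.smul_def, eq_ratCast]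
    exact mul_mem (SubfieldClass.ratCast_mem E _) (pow_mem hθE i)
  · rw [← hP]
    exact hQ

theorem lfx_powp {ρ : ℝ} {u v : ℂ_[p]} (hu : ‖u‖ ≤ 1) (hv : ‖v‖ ≤ 1) (huv : ‖u - v‖ ≤ ρ)
    (hpρ : ‖(p : ℂ_[p])‖ ≤ ρ) : ‖u ^ p - v ^ p‖ ≤ ρ * ‖u - v‖ := by
  have hρ : 0 ≤ ρ := (norm_nonneg _).trans huv
  rw [← geom_sum₂_mul, norm_mul]
  refine mul_le_mul_of_nonneg_right ?_ (norm_nonneg _)
  have hpow : ∀ i : ℕ, ‖u ^ i - v ^ i‖ ≤ ρ := by
    intro i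
    rw [← geom_sum₂_mul, norm_mul]
    have h1 : ‖∑ j ∈ Finset.range i, u ^ j * v ^ (i - 1 - j)‖ ≤ 1 := by
      refine IsUltrametricDist.norm_sum_le_of_forall_le_of_nonneg zero_le_one ?_
      intro j _
      rw [norm_mul, norm_pow, norm_pow]
      exact mul_le_one₀ (pow_le_one₀ (norm_nonneg _) hu) (by positivity) (pow_le_one₀ (norm_nonneg _) hv)
    calc _ ≤ 1 * ρ := mul_le_mul h1 huv (norm_nonneg _) zero_le_one
      _ = ρ := one_mul _
  have e : ∑ j ∈ Finset.range p, u ^ j * v ^ (p - 1 - j) =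
      (∑ j ∈ Finset.range p, (u ^ j - v ^ j) * v ^ (p - 1 - j)) + (p : ℂ_[p]) * v ^ (p - 1) := by
    have e1 : ∀ j ∈ Finset.range p, u ^ j * v ^ (p - 1 - j) =
        (u ^ j - v ^ j) * v ^ (p - 1 - j) + v ^ (p - 1) := by
      intro j hj
      have hj' : j < p := Finset.mem_range.1 hj
      have e2 : v ^ (p - 1) = v ^ j * v ^ (p - 1 - j) := by
        rw [← pow_add]
        congr 1
        omega
      rw [e2]
      ring
    rw [Finset.sum_congr rfl e1, Finset.sum_add_distrib, Finset.sum_const, Finset.card_range,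
      nsmul_eq_mul]
  rw [e]
  refine (IsUltrametricDist.norm_add_le_max _ _).trans (max_le ?_ ?_)
  · refine IsUltrametricDist.norm_sum_le_of_forall_le_of_nonneg hρ ?_
    intro j _
    rw [norm_mul, norm_pow]
    calc _ ≤ ρ * 1 := mul_le_mul (hpow j) (pow_le_one₀ (norm_nonneg _) hv) (by positivity) hρ
      _ = ρ := mul_one _
  · rw [norm_mul, norm_pow]
    calc _ ≤ ρ * 1 := mul_le_mul hpρ (pow_le_one₀ (norm_nonneg _) hv) (by positivity) hρ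
      _ = ρ := mul_one _

theorem lfx_powk {ρ : ℝ} (hρ1 : ρ ≤ 1) {u v : ℂ_[p]} (hu : ‖u‖ ≤ 1) (hv : ‖v‖ ≤ 1)
    (huv : ‖u - v‖ ≤ ρ) (hpρ : ‖(p : ℂ_[p])‖ ≤ ρ) (k : ℕ) :
    ‖u ^ (p ^ k) - v ^ (p ^ k)‖ ≤ ρ ^ k * ρ := by
  have hρ : 0 ≤ ρ := (norm_nonneg _).trans huv
  induction k with
  | zero => simpa using huv
  | succ k ih =>
    have h1 : ‖u ^ (p ^ k)‖ ≤ 1 := by rw [norm_pow]; exact pow_le_one₀ (norm_nonneg _) hu
    have h2 : ‖v ^ (p ^ k)‖ ≤ 1 := by rw [norm_pow]; exact pow_le_one₀ (norm_nonneg _) hv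
    have h3 : ‖u ^ (p ^ k) - v ^ (p ^ k)‖ ≤ ρ :=
      ih.trans (mul_le_of_le_one_left hρ (pow_le_one₀ hρ hρ1))
    have h4 := lfx_powp h1 h2 h3 hpρ
    rw [← pow_mul, ← pow_mul, ← pow_succ] at h4
    refine h4.trans ?_
    calc ρ * ‖u ^ (p ^ k) - v ^ (p ^ k)‖ ≤ ρ * (ρ ^ k * ρ) := mul_le_mul_of_nonneg_left ih hρ
      _ = ρ ^ (k + 1) * ρ := by ring

theorem lfx_closed (E : IntermediateField ℚ_[p] ℂ_[p]) (hE : FiniteDimensional ℚ_[p] E) :
    IsClosed (E : Set ℂ_[p]) := by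
  have hE' : FiniteDimensional ℚ_[p] E.toSubmodule := hE
  exact Submodule.closed_of_finiteDimensional E.toSubmodule

theorem lfx_tei (E : IntermediateField ℚ_[p] ℂ_[p]) (hE : FiniteDimensional ℚ_[p] E) (n : ℕ)
    (hn : 0 < n) (x : ℂ_[p]) (hx : x ∈ E) (hx1 : ‖x‖ ≤ 1) (hr : res x ^ (p ^ n) = res x) :
    ∃ z ∈ E, z ^ (p ^ n) = z ∧ ‖z‖ ≤ 1 ∧ res z = res x := by
  have hq1 : ‖x ^ (p ^ n)‖ ≤ 1 := by rw [norm_pow]; exact pow_le_one₀ (norm_nonneg _) hx1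
  have h1 : ‖x ^ (p ^ n) - x‖ < 1 := by
    rw [← res_eq_iff hq1 hx1, res_pow hx1, hr]
  have hp1 : ‖(p : ℂ_[p])‖ < 1 := by
    rw [norm_p]
    exact inv_lt_one_of_one_lt₀ (by exact_mod_cast hp.out.one_lt)
  obtain ⟨ρ, hρ, hρ1, hρ2, hρ3⟩ : ∃ ρ : ℝ, 0 ≤ ρ ∧ ρ < 1 ∧ ‖x ^ (p ^ n) - x‖ ≤ ρ ∧
      ‖(p : ℂ_[p])‖ ≤ ρ :=
    ⟨max ‖x ^ (p ^ n) - x‖ ‖(p : ℂ_[p])‖, (norm_nonneg _).trans (le_max_left _ _), max_lt h1 hp1,
      le_max_left _ _, le_max_right _ _⟩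
  have hstep : ∀ j : ℕ, ‖x ^ (p ^ (n * (j + 1))) - x ^ (p ^ (n * j))‖ ≤ ρ ^ j * ρ := by
    intro j
    have h2 := lfx_powk hρ1.le hq1 hx1 hρ2 hρ3 (n * j)
    rw [← pow_mul, ← pow_add] at h2
    have e : n + n * j = n * (j + 1) := by ring
    rw [e] at h2
    refine h2.trans (mul_le_mul_of_nonneg_right ?_ hρ)
    exact pow_le_pow_of_le_one hρ hρ1.le (Nat.le_mul_of_pos_left j hn)
  have hcauchy : CauchySeq (fun j : ℕ => x ^ (p ^ (n * j))) := by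
    refine cauchySeq_of_le_geometric ρ ρ hρ1 ?_
    intro j
    rw [dist_eq_norm, norm_sub_rev]
    refine (hstep j).trans (le_of_eq (mul_comm _ _))
  obtain ⟨z, hz⟩ := cauchySeq_tendsto_of_complete hcauchy
  have hzE : z ∈ E := by
    have hc := lfx_closed E hE
    exact hc.mem_of_tendsto hz (Filter.Eventually.of_forall fun j => pow_mem hx _)
  have hz1 : ‖z - x‖ ≤ ρ := by
    have hle : ∀ j : ℕ, ‖x ^ (p ^ (n * j)) - x‖ ≤ ρ := by
      intro j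
      induction j with
      | zero => simpa using hρ
      | succ j ih =>
        have e : x ^ (p ^ (n * (j + 1))) - x = (x ^ (p ^ (n * (j + 1))) - x ^ (p ^ (n * j))) +
          (x ^ (p ^ (n * j)) - x) := by ring
        rw [e]
        refine (IsUltrametricDist.norm_add_le_max _ _).trans (max_le ?_ ih)
        exact (hstep j).trans (mul_le_of_le_one_left hρ (pow_le_one₀ hρ hρ1.le))
    have h3 : Filter.Tendsto (fun j : ℕ => ‖x ^ (p ^ (n * j)) - x‖) Filter.atTop (nhds ‖z - x‖) :=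
      (hz.sub_const x).norm
    exact le_of_tendsto' h3 hle
  have hz2 : ‖z‖ ≤ 1 := by
    have e : z = (z - x) + x := by ring
    rw [e]
    exact (IsUltrametricDist.norm_add_le_max _ _).trans (max_le (hz1.trans hρ1.le) hx1)
  refine ⟨z, hzE, ?_, hz2, ?_⟩
  · have h4 : Filter.Tendsto (fun j : ℕ => (x ^ (p ^ (n * j))) ^ (p ^ n)) Filter.atTop
      (nhds (z ^ (p ^ n))) := hz.pow _
    have h5 : Filter.Tendsto (fun j : ℕ => x ^ (p ^ (n * (j + 1)))) Filter.atTop (nhds z) :=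
      (Filter.tendsto_add_atTop_iff_nat 1).2 hz
    have e : (fun j : ℕ => (x ^ (p ^ (n * j))) ^ (p ^ n)) = fun j : ℕ => x ^ (p ^ (n * (j + 1))) := by
      funext j
      rw [← pow_mul, ← pow_add]
      congr 2
    rw [e] at h4
    exact tendsto_nhds_unique h4 h5
  · rw [res_eq_iff hz2 hx1]
    exact lt_of_le_of_lt hz1 hρ1

/-- the residue field of `E` -/
noncomputable def lfx_k (E : IntermediateField ℚ_[p] ℂ_[p]) : Subfield (RF p) where
  carrier := {ξ | ∃ x ∈ E, ‖x‖ ≤ 1 ∧ res x = ξ}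
  mul_mem' := by
    rintro a b ⟨x, hx, hx1, rfl⟩ ⟨y, hy, hy1, rfl⟩
    refine ⟨x * y, mul_mem hx hy, ?_, res_mul hx1 hy1⟩
    rw [norm_mul]
    exact mul_le_one₀ hx1 (norm_nonneg y) hy1
  one_mem' := ⟨1, one_mem _, by rw [norm_one], res_one⟩
  add_mem' := by
    rintro a b ⟨x, hx, hx1, rfl⟩ ⟨y, hy, hy1, rfl⟩
    exact ⟨x + y, add_mem hx hy, (OO p).add_mem x y hx1 hy1, res_add hx1 hy1⟩
  zero_mem' := ⟨0, zero_mem _, by rw [norm_zero]; exact zero_le_one, res_zero⟩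
  neg_mem' := by
    rintro a ⟨x, hx, hx1, rfl⟩
    exact ⟨-x, neg_mem hx, by rw [norm_neg]; exact hx1, res_neg hx1⟩
  inv_mem' := by
    rintro a ⟨x, hx, hx1, rfl⟩
    by_cases h0 : res x = 0
    · refine ⟨0, zero_mem _, by rw [norm_zero]; exact zero_le_one, ?_⟩
      rw [h0, inv_zero, res_zero]
    · have h2 : ‖x‖ = 1 := (norm_eq_one_iff hx1).2 h0
      have h3 : ‖x⁻¹‖ ≤ 1 := by rw [norm_inv, h2, inv_one]
      have hx0 : x ≠ 0 := by
        intro h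
        rw [h, norm_zero] at h2
        exact zero_ne_one h2
      refine ⟨x⁻¹, inv_mem hx, h3, ?_⟩
      have h4 : res (x⁻¹ * x) = res x⁻¹ * res x := res_mul h3 hx1
      rw [inv_mul_cancel₀ hx0, res_one] at h4
      exact eq_inv_of_mul_eq_one_left h4.symm

theorem lfx_mem_k {E : IntermediateField ℚ_[p] ℂ_[p]} {ξ : RF p} :
    ξ ∈ lfx_k E ↔ ∃ x ∈ E, ‖x‖ ≤ 1 ∧ res x = ξ := Iff.rfl

theorem lfx_finite (E : IntermediateField ℚ_[p] ℂ_[p]) (hE : FiniteDimensional ℚ_[p] E) :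
    Finite (lfx_k E) := by
  obtain ⟨r, f, hf⟩ := Pool.Agent.Helper14.BSC.efin_cover E hE
  choose x hx hx1 hx2 using fun ξ : lfx_k E => lfx_mem_k.1 ξ.2
  choose i hi using fun ξ : lfx_k E => hf (x ξ) (hx ξ) (hx1 ξ)
  refine Finite.of_injective i ?_
  intro ξ η h
  apply Subtype.ext
  rw [← hx2 ξ, ← hx2 η, res_eq_iff (hx1 ξ) (hx1 η)]
  have e : x ξ - x η = (x ξ - f (i ξ)) + -(x η - f (i η)) := by
    rw [h]
    ring
  rw [e]
  refine lt_of_le_of_lt (IsUltrametricDist.norm_add_le_max _ _) (max_lt (hi ξ) ?_)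
  rw [norm_neg]
  exact hi η

end lfx

theorem st_LFX (h : ST_RFA) : ST_LFX := by
  intro p hp A hA E hE
  refine ⟨fun x hx δ hδ => lfx_dense A hA E hE x hx δ hδ, ?_⟩
  obtain ⟨π, hπE, hπ0, hπ1, hπ2⟩ := Pool.Agent.Helper14.BSC.loc_pi A A.subtype E hE
  have hfk : Finite (lfx_k E) := lfx_finite E hE
  have : Fintype (lfx_k E) := Fintype.ofFinite _
  have hch : CharP (lfx_k E) p := (algebraMap (lfx_k E) (RF p)).charP (algebraMap (lfx_k E) (RF p)).injective p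
  obtain ⟨n, -, hn⟩ := FiniteField.card (lfx_k E) p
  have hle : lfx_k E ≤ Fq p n := by
    intro ξ hξ
    rw [mem_Fq]
    have h1 := FiniteField.pow_card (⟨ξ, hξ⟩ : lfx_k E)
    rw [hn] at h1
    exact congrArg Subtype.val h1
  obtain ⟨-, -, h3, -⟩ := h p
  obtain ⟨hfin, hcard⟩ := h3 n n.pos
  have heq : ∀ ξ : RF p, ξ ∈ Fq p n → ξ ∈ lfx_k E := by
    intro ξ hξ
    have h1 : ((lfx_k E : Set (RF p))) = (Fq p n : Set (RF p)) := by
      have hf : (Fq p n : Set (RF p)).Finite := Set.toFinite _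
      apply Set.eq_of_subset_of_ncard_le hle _ hf
      have e1 : (Fq p n : Set (RF p)).ncard = p ^ (n : ℕ) := hcard
      have e2 : (lfx_k E : Set (RF p)).ncard = p ^ (n : ℕ) := by
        rw [← hn, ← Nat.card_eq_fintype_card]
        rfl
      rw [e1, e2]
    have h2 : ξ ∈ (Fq p n : Set (RF p)) := hξ
    rw [← h1] at h2
    exact h2
  refine ⟨π, π.2, n, hE, hπE, hπ0, hπ1, ?_, n.pos, ?_, ?_⟩
  · intro x hx hx0
    obtain ⟨a, haA, haE, hxa⟩ := lfx_dense A hA E hE x hx ‖x‖ (norm_pos_iff.2 hx0)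
    have hn1 : ‖a‖ = ‖x‖ := by
      have h1 : ‖a - x‖ < ‖x‖ := by rw [norm_sub_rev]; exact hxa
      have e : a = (a - x) + x := by ring
      rw [e, IsUltrametricDist.norm_add_eq_max_of_norm_ne_norm h1.ne, max_eq_right h1.le]
    have ha0 : (⟨a, haA⟩ : A) ≠ 0 := by
      intro h0
      have h1 : a = 0 := congrArg Subtype.val h0
      rw [h1, norm_zero] at hn1
      exact hx0 (norm_eq_zero.1 hn1.symm)
    obtain ⟨j, hj⟩ := hπ2 ⟨a, haA⟩ haE ha0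
    exact ⟨j, by rw [← hn1]; exact hj⟩
  · intro x hx hx1
    exact hle ⟨x, hx, hx1, rfl⟩
  · intro ξ hξ
    obtain ⟨x, hx, hx1, hx2⟩ := heq ξ hξ
    obtain ⟨z, hz, hz1, hz2, hz3⟩ := lfx_tei E hE n n.pos x hx hx1 (by rw [hx2]; exact hξ)
    exact ⟨z, hz, hz1, hz2, hz3.trans hx2⟩

end Pool.Agent.Helper60.FF
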